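import Pool.Agent.H756.GN.Stm

set_option autoImplicit false

/-! Project GN, package VAR: second moments of compact sets which contain a cube. -/

namespace Pool.Agent.U165.GN

open MeasureTheory Set

theorem var_gauss (n : ℕ) (l : ℝ) (hl : 0 < l) :
    Integrable (fun x : Fin n → ℝ => Real.exp (-l * ∑ i, x i ^ 2)) ∧
      ∫ x : Fin n → ℝ, Real.exp (-l * ∑ i, x i ^ 2) = Real.sqrt (Real.pi / l) ^ n := by
  have h0 : (fun x : Fin n → ℝ => Real.exp (-l * ∑ i, x i ^ 2)) =
      fun x => ∏ i, (fun t : ℝ => Real.exp (-l * t ^ 2)) (x i) := by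
    funext x
    rw [Finset.mul_sum, Real.exp_sum]
  rw [h0]
  constructor
  · exact Integrable.fintype_prod (f := fun (_ : Fin n) (t : ℝ) => Real.exp (-l * t ^ 2))
      (μ := fun _ => (volume : Measure ℝ)) (fun _ => integrable_exp_neg_mul_sq hl)
  · rw [integral_fintype_prod_volume_eq_pow (fun t : ℝ => Real.exp (-l * t ^ 2)),
      integral_gaussian, Fintype.card_fin]

theorem var_main (n : ℕ) (K : Set (Fin n → ℝ)) (hn : 1 ≤ n) (hK : IsCompact K)
    (hc : ∀ x : Fin n → ℝ, (∀ i, |x i| ≤ 1 / 2) → x ∈ K) :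
    ∃ i, (volume K).toReal / 20 ≤ ∫ x in K, x i ^ 2 := by
  by_contra hcon
  push Not at hcon
  have hfin : volume K ≠ ⊤ := hK.measure_lt_top.ne
  have hcube : volume (Set.pi univ fun _ : Fin n => Icc (-(1 / 2) : ℝ) (1 / 2)) = 1 := by
    rw [volume_pi_pi]
    simp only [Real.volume_Icc, Finset.prod_const]
    norm_num
  have hV1 : 1 ≤ (volume K).toReal := by
    have h1 : (Set.pi univ fun _ : Fin n => Icc (-(1 / 2) : ℝ) (1 / 2)) ⊆ K := by
      intro x hx
      apply hc
      intro i
      exact abs_le.2 (hx i (mem_univ i))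
    have h2 := measure_mono (μ := (volume : Measure (Fin n → ℝ))) h1
    rw [hcube] at h2
    have := ENNReal.toReal_mono hfin h2
    simpa using this
  have hV0 : 0 < (volume K).toReal := by linarith
  have hi : ∀ i : Fin n, IntegrableOn (fun x : Fin n → ℝ => x i ^ 2) K := fun i =>
    ((continuous_apply i).pow 2).continuousOn.integrableOn_compact hK
  have hq : Continuous fun x : Fin n → ℝ => ∑ i, x i ^ 2 :=
    continuous_finsetSum _ fun i _ => (continuous_apply i).pow 2
  have hqi : IntegrableOn (fun x : Fin n → ℝ => ∑ i, x i ^ 2) K :=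
    hq.continuousOn.integrableOn_compact hK
  have hsum : ∫ x in K, ∑ i, x i ^ 2 = ∑ i, ∫ x in K, x i ^ 2 :=
    integral_finsetSum _ fun i _ => hi i
  have hlt : ∫ x in K, ∑ i, x i ^ 2 < n * ((volume K).toReal / 20) := by
    rw [hsum]
    have hne : (Finset.univ : Finset (Fin n)).Nonempty := ⟨⟨0, hn⟩, Finset.mem_univ _⟩
    refine (Finset.sum_lt_sum_of_nonempty hne fun i _ => hcon i).trans_eq ?_
    rw [Finset.sum_const, Finset.card_univ, Fintype.card_fin, nsmul_eq_mul]
  set l : ℝ := Real.pi * Real.exp 1 with hl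
  have hl0 : 0 < l := mul_pos Real.pi_pos (Real.exp_pos 1)
  obtain ⟨m, hm⟩ : ∃ m : ℝ, ∫ x in K, ∑ i, x i ^ 2 = m * (volume K).toReal :=
    ⟨(∫ x in K, ∑ i, x i ^ 2) / (volume K).toReal, (div_mul_cancel₀ _ hV0.ne').symm⟩
  have hmn : m < n / 20 := by
    rw [hm] at hlt
    have : m * (volume K).toReal < n / 20 * (volume K).toReal := by linarith
    exact lt_of_mul_lt_mul_right this hV0.le
  obtain ⟨g1, g2⟩ := var_gauss n l hl0
  -- pointwise bound
  have hpt : ∀ x : Fin n → ℝ, Real.exp (-l * m) * (1 - l * (∑ i, x i ^ 2 - m)) ≤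
      Real.exp (-l * ∑ i, x i ^ 2) := by
    intro x
    have h1 := Real.add_one_le_exp (-l * (∑ i, x i ^ 2 - m))
    have h2 : Real.exp (-l * ∑ i, x i ^ 2) =
        Real.exp (-l * m) * Real.exp (-l * (∑ i, x i ^ 2 - m)) := by
      rw [← Real.exp_add]
      congr 1
      ring
    rw [h2]
    refine mul_le_mul_of_nonneg_left ?_ (Real.exp_pos _).le
    linarith
  have hint1 : IntegrableOn (fun x : Fin n → ℝ =>
      Real.exp (-l * m) * (1 - l * (∑ i, x i ^ 2 - m))) K := by
    refine Continuous.continuousOn ?_ |>.integrableOn_compact hK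
    fun_prop
  have hstep : ∫ x in K, Real.exp (-l * m) * (1 - l * (∑ i, x i ^ 2 - m)) ≤
      ∫ x in K, Real.exp (-l * ∑ i, x i ^ 2) :=
    setIntegral_mono hint1 g1.integrableOn hpt
  have hstep2 : ∫ x in K, Real.exp (-l * ∑ i, x i ^ 2) ≤ Real.sqrt (Real.pi / l) ^ n := by
    rw [← g2]
    exact setIntegral_le_integral g1 (Filter.Eventually.of_forall fun x => (Real.exp_pos _).le)
  have hcalc : ∫ x in K, Real.exp (-l * m) * (1 - l * (∑ i, x i ^ 2 - m)) =
      Real.exp (-l * m) * (volume K).toReal := by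
    have h3 : (fun x : Fin n → ℝ => Real.exp (-l * m) * (1 - l * (∑ i, x i ^ 2 - m))) =
        fun x => Real.exp (-l * m) * (1 + l * m) - Real.exp (-l * m) * l * ∑ i, x i ^ 2 := by
      funext x
      ring
    have h4 : Integrable (fun _ : Fin n → ℝ => Real.exp (-l * m) * (1 + l * m))
        (volume.restrict K) := integrableOn_const hfin
    have h5 : Integrable (fun x : Fin n → ℝ => Real.exp (-l * m) * l * ∑ i, x i ^ 2)
        (volume.restrict K) := hqi.const_mul _
    rw [h3, integral_sub h4 h5, setIntegral_const, integral_const_mul, hm, smul_eq_mul,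
      measureReal_def]
    ring
  have hsq : Real.sqrt (Real.pi / l) ^ n = Real.exp (-(n / 2 : ℝ)) := by
    have h4 : Real.pi / l = Real.exp (-1) := by
      rw [hl, Real.exp_neg, div_mul_eq_div_div, div_self Real.pi_ne_zero, one_div]
    have h5 : Real.sqrt (Real.exp (-1)) = Real.exp (-1 / 2) := by
      rw [Real.exp_half]
    rw [h4, h5, ← Real.exp_nat_mul]
    congr 1
    ring
  rw [hcalc] at hstep
  rw [hsq] at hstep2
  have h6 : Real.exp (-l * m) ≤ Real.exp (-(n / 2 : ℝ)) := by
    refine le_trans ?_ (hstep.trans hstep2)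
    exact le_mul_of_one_le_right (Real.exp_pos _).le hV1
  have h7 := Real.exp_le_exp.1 h6
  have hlb : l < 10 := by
    have h8 := Real.pi_lt_d4
    have h9 := Real.exp_one_lt_d9
    have h10 := Real.pi_pos
    rw [hl]
    nlinarith
  have hn0 : (0 : ℝ) < n := by exact_mod_cast hn
  have h11 : l * m < l * (n / 20) := mul_lt_mul_of_pos_left hmn hl0
  have h12 : l * (n / 20) < 10 * (n / 20) := mul_lt_mul_of_pos_right hlb (by positivity)
  linarith

theorem t_VAR : Pool.Agent.H756.GN.S_VAR := fun n K hn hK hc => var_main n K hn hK hc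

end Pool.Agent.U165.GN
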